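import Pool.Agent.Lib.MP_b7b517_ag.Sc.Main

/-!
On the product of five projective lines over `ℂ` there is an effective integral 3-cycle whose
mobility count grows like `m ^ (6 / 5)`.
-/

namespace Pool.Agent.Results.MP_b7b517_ag.NonInteger

open Filter Pool.Agent.Lib.MP_d3d358_ag.Cw Pool.Agent.Lib.MP_b7b517_ag.Sc
open scoped ENNReal

theorem result : ∃ α : Cyc X5.left, Eff 3 α ∧ IsGreatest {r : ℝ | 0 < limsup
    (fun m : ℕ => mc X5 3 (m • α) / (m : ℝ≥0∞) ^ r) atTop} (6 / 5) := main

end Pool.Agent.Results.MP_b7b517_ag.NonInteger
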